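import Pool.Agent.H820.PC.Final

/-!
# Symplectic forms on the complex projective plane which are positive on algebraic curves

Let `S` be the space, with the `C^∞` topology, of the symplectic forms on `ℂℙ²` in the class of the
Fubini-Study form (every nonempty space of cohomologous symplectic forms on `ℂℙ²` is homeomorphic
to it by scaling). The question is whether `S` is contractible. We prove that the following subset
`Covered` of `S` is contractible: the forms `Ω` for which there is a form `κ` in `S` which tames the
standard complex structure (for example the Fubini-Study form) such that through every point at
which `Ω ∧ κ` is not positive passes an algebraic curve, of any degree, possibly singular, on which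
`Ω` is positive. The curves may depend on `Ω`, and need not form a pencil.

Idea of the proof. Let `F` be the equation of a curve of degree `k` on which `Ω` is positive, and
let `α = |F|² / |z|^{2k}`. The Kähler forms `ω_FS + d (ψ(α) dᶜα) / k` with `α ψ(α) = 1 - (1+α)^{-n}`
are concentrated near the curve, and after a rescaling of `F` their wedge product with `Ω` is at
least `c (2/3)^n` where `α ≤ 1/2`, and at least `- C (1 + n) 2^{-n}` everywhere. By compactness
finitely many such forms together with `κ` have a convex combination `κ'` with `Ω ∧ κ' > 0`, so
that the segment from `Ω` to `κ'` consists of symplectic forms. The forms `κ'` which work for `Ω`
form a convex set, and they can be chosen continuously in `Ω`; then the taming forms are contracted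
linearly.

The definitions are in `Pool.Agent.H820.PC.Defs`: forms on `ℂℙ²` are written as forms on `ℂ³ ∖ {0}`
which are invariant under the complex multiplications and vanish on the vertical vectors.
-/

set_option autoImplicit false

namespace Pool.Agent.Results.MP_2fc7fa_gt.PositiveCurves

open Pool.Agent.H820.PC

/-- The space of the symplectic forms on `ℂℙ²` in the class of the Fubini-Study form which are
positive on algebraic curves through all points at which their wedge product with some taming form
of the class is not positive is contractible in the `C^∞` topology. -/
theorem result : ContractibleSpace Covered := contractible_covered

end Pool.Agent.Results.MP_2fc7fa_gt.PositiveCurves
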