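import Pool.Agent.H820.PT.Sum

/-!
# Symplectic forms on the complex projective plane which are positive on prescribed tubes

Let `S` be the space, with the `C^∞` topology, of the symplectic forms on `ℂℙ²` in the class of the
Fubini-Study form. A tube `{|F(z)|² ≤ c |z|^{2k}}` around an algebraic curve `{F = 0}` of degree `k`
is foliated by the level sets of `|F| / |z|^k`, and these carry a field of complex tangent lines
(the curve itself is the case `c = 0`). Let `A` be any family of tubes which cover `ℂℙ²`. We prove
that the space of the forms in `S` which are positive on the complex tangent lines of all tubes in
`A` is contractible.

Examples. (1) `A` is any family of algebraic curves, of arbitrary degrees and possibly singular,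
which cover `ℂℙ²`: no regularity in the parameters, no pencil and no fibration is needed. For the
pencil of the lines through a point this is a result of Gompf. (2) `A` consists of the single tube
`{|F(z)|² ≤ c |z|^{2k}}` with large `c`, the whole of `ℂℙ²`: the forms which are positive on the
complex tangent planes of all level sets of `|F| / |z|^k` form a contractible space. For `k = 1`
these are the forms which are positive on the contact planes of all round spheres about a point.
For a single line alone (`k = 1`, `c = 0`), which does not cover `ℂℙ²`, the corresponding space is
homotopy equivalent to the group of the compactly supported diffeomorphisms of the four-ball (by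
Gromov), and hence not contractible (by Watanabe).

Idea of the proof. The Kähler forms `ω_FS + d (ψ(α) dᶜα) / k` with `α = |F|² / |z|^{2k}` and
`α ψ(α) = 1 - (1+α)^{-n}` are concentrated near the tube `{α ≤ c}` if they are multiplied by the
weight `(1+c)^n`. Finitely many of them have a convex combination `κ` with `Ω ∧ κ > 0`, and then
the segment from `Ω` to `κ` consists of symplectic forms which are positive on the tubes. The forms
`κ` which work for `Ω` form a convex set, and they can be chosen continuously in `Ω`; then the
taming forms are contracted linearly.

The definitions are in `Pool.Agent.H820.PC.Defs` and `Pool.Agent.H820.PT.Defs`: forms on `ℂℙ²` are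
written as forms on `ℂ³ ∖ {0}` which are invariant under the complex multiplications and vanish on
the vertical vectors.
-/

set_option autoImplicit false

namespace Pool.Agent.Results.MP_2fc7fa_gt.PositiveTubes

open Pool.Agent.H820.PC Pool.Agent.H820.PT

/-- If the tubes of the family `A` cover `ℂℙ²`, then the space of the symplectic forms on `ℂℙ²` in
the class of the Fubini-Study form which are positive on all tubes of `A` is contractible in the
`C^∞` topology. -/
theorem result (A : Set Tube) (hA : ∀ z : C3, z ≠ 0 → ∃ T ∈ A, z ∈ T.region) :
    ContractibleSpace (PositiveForms A) := contractible_positiveForms hA

end Pool.Agent.Results.MP_2fc7fa_gt.PositiveTubes
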