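import Pool.Agent.H820.RT.Final

/-!
# Symplectic forms on the complex projective plane which are positive on rotating contact planes

Let `S` be the space, with the `C^∞` topology, of the symplectic forms on `ℂℙ²` in the class of the
Fubini-Study form, and let `L` be a line and `p` a point not on `L`. The complement of `L` and `p`
is foliated by the round spheres about `p`. Each of these carries a family, parametrized by the
two-sphere, of contact structures which are invariant under `SU(2)`: the planes orthogonal to
`u₀ i x + u₁ j x + u₂ k x` (quaternionic multiplication on `ℂ² = ℍ`). We prove that the forms `Ω`
in `S` which are positive on `L` and, on each of the spheres, on one of these contact structures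
form a contractible space. The contact structure may depend on the form and on the radius, in an
arbitrary way; no continuity in the radius is assumed. It may rotate, for instance from the
standard one near `L` to its opposite near `p`, in which case `Ω` is negative on the complex lines
near `p`. So there is no fixed almost complex structure, pencil or foliation in the background. The
forms in `S` which are invariant under `SU(2)` belong to this space.

Idea of the proof. The vectors `u` which work for one sphere form a convex cone; near `p` the
self-dual part of `Ω` at `p` works, and near `L` the vector `(1, 0, 0)`. So `u` can be chosen as a
smooth function of the radius. If `ψ` is a positive function which grows fast then the invariant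
form `K = d (ψ (u₀ α₀ + u₁ α₁ + u₂ α₂))`, where the `αᵢ` are the invariant one-forms of the
spheres, is symplectic, lies in `S`, and satisfies `Ω ∧ K > 0`, so that the segment from `Ω` to `K`
consists of symplectic forms, which are positive on the same planes. The curves `u` form a convex
set, and so do the functions `ψ` for fixed `u`; thus both can be chosen continuously in `Ω` in two
steps, for the topology in which the contraction of the space of invariant forms, which moves the
point of the curve `ψ u` with the parameter `t` to the one with the parameter `τ t`, is continuous.

The definitions are in `Pool.Agent.H820.PC.Defs` and `Pool.Agent.H820.RT.Defs`: forms on `ℂℙ²` are
written as forms on `ℂ³ ∖ {0}` which are invariant under the complex multiplications and vanish on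
the vertical vectors; `L = {z₀ = 0}` and `p = [1 : 0 : 0]`.
-/

set_option autoImplicit false

namespace Pool.Agent.Results.MP_2fc7fa_gt.RotatingContactPlanes

open Pool.Agent.H820.PC Pool.Agent.H820.RT

/-- The space of the symplectic forms on `ℂℙ²` in the class of the Fubini-Study form which are
positive on the line at infinity and, on each round sphere in the affine chart `ℂ²`, on one of the
contact structures which are invariant under `SU(2)` is contractible in the `C^∞` topology. -/
theorem result : ContractibleSpace {Ω : TwoForm | Rotating Ω} := contractible_rotating

end Pool.Agent.Results.MP_2fc7fa_gt.RotatingContactPlanes
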